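import Mathlib

set_option autoImplicit false

/-!
# Polynomial growth of nilpotent groups, and finiteness from a torsion centre
-/

namespace Pool.Agent.H375Z.NilGrowth

open scoped Pointwise
open Subgroup

section Growth

variable {N : Type*} [Group N] [DecidableEq N]

/-- Polynomial growth of the powers of a finite set. -/
def PG (U : Finset N) : Prop := ∃ C D : ℕ, ∀ k : ℕ, (U ^ k).card ≤ C * (k + 1) ^ D

omit [DecidableEq N] in
theorem comm_mem {n : ℕ} {x : N} (hx : x ∈ Subgroup.upperCentralSeries N (n + 1)) (t : N) :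
    x⁻¹ * t⁻¹ * x * t ∈ Subgroup.upperCentralSeries N n := by
  have h := Subgroup.mem_upperCentralSeries_succ_iff.1 (inv_mem hx) t⁻¹
  rwa [commutatorElement_def, inv_inv, inv_inv] at h

theorem PG.mono {U V : Finset N} (h : PG V) (hUV : U ⊆ V) : PG U := by
  obtain ⟨C, D, h⟩ := h
  exact ⟨C, D, fun k => (Finset.card_le_card (Finset.pow_subset_pow_left hUV)).trans (h k)⟩

theorem exists_closed (T : Finset N) : ∀ (n : ℕ) (X : Finset N),
    (∀ x ∈ X, x ∈ Subgroup.upperCentralSeries N n) → ∃ D : Finset N, X ⊆ D ∧ 1 ∈ D ∧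
      (∀ x ∈ D, x ∈ Subgroup.upperCentralSeries N n) ∧ ∀ x ∈ D, ∀ t ∈ T, x⁻¹ * t⁻¹ * x * t ∈ D := by
  intro n
  induction n with
  | zero =>
    intro X hX
    refine ⟨{1}, fun x hx => ?_, Finset.mem_singleton_self _, fun x hx => ?_, fun x hx t _ => ?_⟩
    · have := hX x hx
      rw [Subgroup.upperCentralSeries_zero, mem_bot] at this
      exact Finset.mem_singleton.2 this
    · rw [Finset.mem_singleton.1 hx]
      exact one_mem _
    · rw [Finset.mem_singleton.1 hx]
      simp
  | succ n ih =>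
    intro X hX
    obtain ⟨D, h1, h2, h3, h4⟩ := ih ((X ×ˢ T).image fun p => p.1⁻¹ * p.2⁻¹ * p.1 * p.2) (by
      intro y hy
      obtain ⟨p, hp, rfl⟩ := Finset.mem_image.1 hy
      exact comm_mem (hX _ (Finset.mem_product.1 hp).1) _)
    refine ⟨X ∪ D, Finset.subset_union_left, Finset.mem_union_right _ h2, fun x hx => ?_,
      fun x hx t ht => Finset.mem_union_right _ ?_⟩
    · rcases Finset.mem_union.1 hx with hx | hx
      · exact hX x hx
      · exact Subgroup.upperCentralSeries_mono N (Nat.le_succ n) (h3 x hx)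
    · rcases Finset.mem_union.1 hx with hx | hx
      · exact h1 (Finset.mem_image.2 ⟨(x, t), Finset.mem_product.2 ⟨hx, ht⟩, rfl⟩)
      · exact h4 x hx t ht

theorem conj_mem {U : Finset N} (h1 : 1 ∈ U) {t : N} (ht : ∀ x ∈ U, x⁻¹ * t⁻¹ * x * t ∈ U) :
    ∀ (n : ℕ) (x : N), x ∈ U → x ∈ Subgroup.upperCentralSeries N n → ∀ e : ℕ,
      (t ^ e)⁻¹ * x * t ^ e ∈ U ^ ((e + 1) ^ n) := by
  intro n
  induction n with
  | zero =>
    intro x _ hx e
    rw [Subgroup.upperCentralSeries_zero, mem_bot] at hx
    subst hx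
    simpa using h1
  | succ n ih =>
    intro x hx hx' e
    induction e with
    | zero => simpa using hx
    | succ e ihe =>
      have h2 := ih _ (ht x hx) (comm_mem hx' t) e
      have h3 := Finset.mul_mem_mul ihe h2
      rw [← pow_add] at h3
      have h4 : (t ^ e)⁻¹ * x * t ^ e * ((t ^ e)⁻¹ * (x⁻¹ * t⁻¹ * x * t) * t ^ e) =
          (t ^ (e + 1))⁻¹ * x * t ^ (e + 1) := by
        rw [pow_succ']
        group
      rw [h4] at h3
      refine Finset.pow_subset_pow_right h1 ?_ h3
      calc (e + 1) ^ (n + 1) + (e + 1) ^ n = (e + 1) ^ n * (e + 1 + 1) := by ring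
        _ ≤ (e + 1 + 1) ^ n * (e + 1 + 1) :=
          Nat.mul_le_mul_right _ (Nat.pow_le_pow_left (Nat.le_succ _) n)
        _ = (e + 1 + 1) ^ (n + 1) := by ring

theorem PG.insert {U : Finset N} (hU : PG U) (h1 : 1 ∈ U) {t : N}
    (ht : ∀ x ∈ U, x⁻¹ * t⁻¹ * x * t ∈ U) {n : ℕ} (hn : ∀ x ∈ U, x ∈ Subgroup.upperCentralSeries N n) :
    PG (insert t U) := by
  obtain ⟨C, D, hU⟩ := hU
  have h2 : ∀ k : ℕ, ∀ g ∈ (Insert.insert t U) ^ k,
      ∃ j ≤ k, ∃ u ∈ U ^ (k * (k + 1) ^ n), g = t ^ j * u := by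
    intro k
    induction k with
    | zero =>
      intro g hg
      refine ⟨0, le_rfl, g, by simpa using hg, by simp⟩
    | succ k ih =>
      intro g hg
      rw [pow_succ'] at hg
      obtain ⟨s, hs, g', hg', rfl⟩ := Finset.mem_mul.1 hg
      obtain ⟨j, hj, u, hu, rfl⟩ := ih g' hg'
      have h3 : (k + 1) ^ n ≤ (k + 1 + 1) ^ n := Nat.pow_le_pow_left (Nat.le_succ _) n
      rcases Finset.mem_insert.1 hs with rfl | hs
      · refine ⟨j + 1, by omega, u, Finset.pow_subset_pow_right h1 ?_ hu, ?_⟩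
        · exact Nat.mul_le_mul (Nat.le_succ _) h3
        · rw [pow_succ', mul_assoc]
      · have h4 := Finset.mul_mem_mul (conj_mem h1 ht n s hs (hn s hs) j) hu
        rw [← pow_add] at h4
        refine ⟨j, by omega, _, Finset.pow_subset_pow_right h1 ?_ h4, by group⟩
        have h5 : (j + 1) ^ n ≤ (k + 1 + 1) ^ n := Nat.pow_le_pow_left (by omega) n
        have h6 := Nat.mul_le_mul_left k h3
        calc (j + 1) ^ n + k * (k + 1) ^ n ≤ (k + 1 + 1) ^ n + k * (k + 1 + 1) ^ n :=
              Nat.add_le_add h5 h6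
          _ = (k + 1) * (k + 1 + 1) ^ n := by ring
  refine ⟨C, (n + 1) * D + 1, fun k => ?_⟩
  have h3 : (Insert.insert t U) ^ k ⊆ (Finset.range (k + 1)).biUnion
      fun j => (U ^ (k * (k + 1) ^ n)).image fun u => t ^ j * u := by
    intro g hg
    obtain ⟨j, hj, u, hu, rfl⟩ := h2 k g hg
    exact Finset.mem_biUnion.2 ⟨j, Finset.mem_range.2 (by omega), Finset.mem_image_of_mem _ hu⟩
  have h4 : k * (k + 1) ^ n + 1 ≤ (k + 1) ^ (n + 1) := by
    have : 1 ≤ (k + 1) ^ n := Nat.one_le_pow _ _ (by omega)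
    calc k * (k + 1) ^ n + 1 ≤ k * (k + 1) ^ n + (k + 1) ^ n := by omega
      _ = (k + 1) ^ (n + 1) := by ring
  calc ((Insert.insert t U) ^ k).card ≤ _ := Finset.card_le_card h3
    _ ≤ (Finset.range (k + 1)).card * (C * ((k + 1) ^ (n + 1)) ^ D) := by
      refine Finset.card_biUnion_le_card_mul _ _ _ fun j _ => Finset.card_image_le.trans ?_
      exact (hU _).trans (Nat.mul_le_mul_left _ (Nat.pow_le_pow_left h4 D))
    _ = C * (k + 1) ^ ((n + 1) * D + 1) := by
      rw [Finset.card_range, ← pow_mul]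
      ring

theorem pg_of_mem : ∀ (n : ℕ) (T : Finset N), (∀ x ∈ T, x ∈ Subgroup.upperCentralSeries N n) → PG T := by
  intro n
  induction n with
  | zero =>
    intro T hT
    refine PG.mono (V := {1}) ⟨1, 0, fun k => by simp [Finset.singleton_pow]⟩ fun x hx => ?_
    have := hT x hx
    rw [Subgroup.upperCentralSeries_zero, mem_bot] at this
    exact Finset.mem_singleton.2 this
  | succ n ih =>
    intro T hT
    obtain ⟨D, h1, h2, h3, h4⟩ := exists_closed T n
      ((T ×ˢ T).image fun p => p.1⁻¹ * p.2⁻¹ * p.1 * p.2) (by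
        intro y hy
        obtain ⟨p, hp, rfl⟩ := Finset.mem_image.1 hy
        exact comm_mem (hT _ (Finset.mem_product.1 hp).1) _)
    have h5 : ∀ T0 : Finset N, T0 ⊆ T → PG (T0 ∪ D) := by
      intro T0
      induction T0 using Finset.induction_on with
      | empty =>
        intro _
        rw [Finset.empty_union]
        exact ih D h3
      | insert t T0 _ ih0 =>
        intro h6
        rw [Finset.insert_subset_iff] at h6
        rw [Finset.insert_union]
        refine (ih0 h6.2).insert (Finset.mem_union_right _ h2) (fun x hx => ?_) (n := n + 1)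
          fun x hx => ?_
        · refine Finset.mem_union_right _ ?_
          rcases Finset.mem_union.1 hx with hx | hx
          · exact h1 (Finset.mem_image.2 ⟨(x, t), Finset.mem_product.2 ⟨h6.2 hx, h6.1⟩, rfl⟩)
          · exact h4 x hx t h6.1
        · rcases Finset.mem_union.1 hx with hx | hx
          · exact hT x (h6.2 hx)
          · exact Subgroup.upperCentralSeries_mono N (Nat.le_succ n) (h3 x hx)
    exact (h5 T (Finset.Subset.refl T)).mono Finset.subset_union_left

theorem nil_growth [Group.IsNilpotent N] (S : Finset N) :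
    ∃ C D : ℕ, ∀ k : ℕ, (S ^ k).card ≤ C * (k + 1) ^ D := by
  obtain ⟨n, hn⟩ := Group.IsNilpotent.nilpotent N
  exact pg_of_mem n S fun x _ => by rw [hn]; exact mem_top x

end Growth

universe u

theorem finite_of_center_torsion {N : Type u} [Group N] [Group.IsNilpotent N] [hN : Group.FG N]
    (h : ∀ z ∈ Subgroup.center N, IsOfFinOrder z) : Finite N := by
  revert hN h
  refine @Group.nilpotent_center_quotient_ind
    (fun G _ _ => ∀ [Group.FG G], (∀ z ∈ Subgroup.center G, IsOfFinOrder z) → Finite G) N _ _ ?_ ?_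
  · intro G _ _ _ _
    infer_instance
  · intro G _ _ ih hG h
    have h1 : Finite (G ⧸ center G) := by
      refine ih fun z hz => ?_
      obtain ⟨x, rfl⟩ := QuotientGroup.mk_surjective z
      have h2 : ∀ s : G, x * s * x⁻¹ * s⁻¹ ∈ center G := by
        intro s
        rw [← QuotientGroup.eq_one_iff]
        have h3 := mem_center_iff.1 hz (s : G ⧸ center G)
        simp only [QuotientGroup.mk_mul, QuotientGroup.mk_inv]
        rw [← h3]
        group
      have h3 : ∀ (s : G) (e : ℕ), x ^ e * s = (x * s * x⁻¹ * s⁻¹) ^ e * s * x ^ e := by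
        intro s e
        induction e with
        | zero => simp
        | succ e ihe =>
          have h4 := mem_center_iff.1 (pow_mem (h2 s) e) x
          calc x ^ (e + 1) * s = x * (x ^ e * s) := by rw [pow_succ', mul_assoc]
            _ = (x * (x * s * x⁻¹ * s⁻¹) ^ e) * s * x ^ e := by rw [ihe]; group
            _ = ((x * s * x⁻¹ * s⁻¹) ^ e * x) * s * x ^ e := by rw [h4]
            _ = (x * s * x⁻¹ * s⁻¹) ^ e * (x * s * x⁻¹ * s⁻¹) * s * (x * x ^ e) := by
              simp only [mul_assoc, inv_mul_cancel_left]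
            _ = (x * s * x⁻¹ * s⁻¹) ^ (e + 1) * s * x ^ (e + 1) := by
              rw [← pow_succ, ← pow_succ']
      obtain ⟨S, hS⟩ := hG.1
      have h4 : x ^ (∏ s ∈ S, orderOf (x * s * x⁻¹ * s⁻¹)) ∈ center G := by
        rw [mem_center_iff]
        intro g
        have hg : g ∈ closure (S : Set G) := by rw [hS]; exact mem_top g
        have h5 : closure (S : Set G) ≤
            centralizer {x ^ (∏ s ∈ S, orderOf (x * s * x⁻¹ * s⁻¹))} := by
          rw [closure_le]
          intro s hs
          rw [SetLike.mem_coe, mem_centralizer_singleton_iff, h3,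
            orderOf_dvd_iff_pow_eq_one.1
              (Finset.dvd_prod_of_mem (fun s => orderOf (x * s * x⁻¹ * s⁻¹)) hs), one_mul]
        exact mem_centralizer_singleton_iff.1 (h5 hg)
      refine isOfFinOrder_iff_pow_eq_one.2 ⟨∏ s ∈ S, orderOf (x * s * x⁻¹ * s⁻¹),
        Finset.prod_pos fun s _ => (h _ (h2 s)).orderOf_pos, ?_⟩
      rw [← QuotientGroup.mk_pow, QuotientGroup.eq_one_iff]
      exact h4
    have h2 : (center G).FiniteIndex := finiteIndex_of_finite_quotient
    let _ : CommGroup (center G) :=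
      { (inferInstance : Group (center G)) with
        mul_comm := fun a b => Subtype.ext (mem_center_iff.1 b.2 a.1) }
    have h3 : Finite (center G) := CommGroup.finite_of_fg_isMulTorsion (center G) fun z => by
      obtain ⟨n, hn, hz⟩ := isOfFinOrder_iff_pow_eq_one.1 (h z.1 z.2)
      exact isOfFinOrder_iff_pow_eq_one.2 ⟨n, hn, Subtype.ext hz⟩
    exact Finite.of_subgroup_quotient (center G)

end Pool.Agent.H375Z.NilGrowth
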